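import Pool.Agent.H21.FrobNC

set_option autoImplicit false

namespace Pool.Agent.Results.MP_291982_ag.NoPowerCoords

open MvPolynomial Pool.Agent.H21

theorem result :
    ∃ (F : MvPolynomial (Fin 4) (ZMod 5)) (d : ℕ), 0 < d ∧ F.IsHomogeneous d ∧ Squarefree F ∧
      F ∣ ∑ i, X i ^ 5 * pderiv i F ∧
      ∀ (k : Type) [Field k] [CharP k 5] (G : MvPolynomial (Fin 4) k),
        G = map (ZMod.castHom (dvd_refl 5) k) F → Squarefree G ∧
        ¬ ∃ a : Fin 4 → MvPolynomial (Fin 4) k, (∀ P, Prime P → P ∣ G → ∃ i, ¬ P ∣ a i) ∧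
          ∀ i j, G ∣ pderiv i G * a j ^ 5 - pderiv j G * a i ^ 5 := by
  haveI : Fact (Nat.Prime 5) := ⟨by norm_num⟩
  refine ⟨FrobNC.F _, 12, by norm_num, FrobNC.hom, FrobNC.sqfree,
    by rw [FrobNC.frob]; exact dvd_zero _, fun k _ _ G hG => ?_⟩
  rw [FrobNC.mapF] at hG
  subst hG
  exact ⟨FrobNC.sqfree, FrobNC.noPow⟩

end Pool.Agent.Results.MP_291982_ag.NoPowerCoords
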