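import Pool.Agent.H21.FrobNC

set_option autoImplicit false

namespace Pool.Agent.Results.MP_291982_ag.SeparableCurve

open MvPolynomial Pool.Agent.H21

/-- Restriction of a polynomial to the twisted cubic `x_i = τ^i`, as an element of `k(τ)`. -/
noncomputable def res (k : Type) [Field k] (a : MvPolynomial (Fin 4) k) : RatFunc k :=
  aeval (fun i : Fin 4 => (RatFunc.X : RatFunc k) ^ (i : ℕ)) a

theorem result :
    ∃ (F : MvPolynomial (Fin 4) (ZMod 5)) (d : ℕ), 0 < d ∧ F.IsHomogeneous d ∧ Squarefree F ∧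
      F ∣ ∑ i, X i ^ 5 * pderiv i F ∧
      ∀ (k : Type) [Field k] [CharP k 5] (G : MvPolynomial (Fin 4) k),
        G = map (ZMod.castHom (dvd_refl 5) k) F → Squarefree G ∧
        res k G = 0 ∧
        res k (pderiv 3 G) ≠ 0 ∧
        ∀ g : RatFunc k, g ^ 5 ≠
          res k (pderiv 0 G) /
          res k (pderiv 3 G) := by
  haveI : Fact (Nat.Prime 5) := ⟨by norm_num⟩
  refine ⟨FrobNC.F _, 12, by norm_num, FrobNC.hom, FrobNC.sqfree,
    by rw [FrobNC.frob]; exact dvd_zero _, fun k _ _ G hG => ?_⟩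
  rw [FrobNC.mapF] at hG
  subst hG
  have key : ∀ a : MvPolynomial (Fin 4) k,
      res k a =
        algebraMap (Polynomial k) (RatFunc k) (FrobNC.ev k a) := by
    intro a
    have : aeval (fun i : Fin 4 => (RatFunc.X : RatFunc k) ^ (i : ℕ)) =
        (IsScalarTower.toAlgHom k (Polynomial k) (RatFunc k)).comp (FrobNC.ev k) := by
      ext i; simp [FrobNC.ev]
    rw [res, this]; rfl
  have h3 : algebraMap (Polynomial k) (RatFunc k) (FrobNC.ev k (pderiv 3 (FrobNC.F k))) ≠ 0 := by
    rw [FrobNC.evF3]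
    exact RatFunc.algebraMap_ne_zero (mul_ne_zero (by simp) FrobNC.one_sub_ne)
  refine ⟨FrobNC.sqfree, by rw [key, FrobNC.evF, map_zero], by rw [key]; exact h3, fun g => ?_⟩
  rw [key, key, FrobNC.evF0, map_mul, mul_div_assoc, div_self h3, mul_one]
  simpa using FrobNC.notPow g

end Pool.Agent.Results.MP_291982_ag.SeparableCurve
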